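import Mathlib
import Pool.Agent.Results.MP_1f8704_gt.BorelClasses

/-!
Sigma-compactness and continuous linear surjections of spaces of continuous functions with the
topology of pointwise convergence.

If `X` is sigma-compact and `C_p(X)` admits a continuous linear surjection onto `C_p(Y)`, then `Y`
is a countable union of closed functionally bounded sets, and `Y` is sigma-compact if and only if
all closed functionally bounded subsets of `Y` are compact.  This is so if `C_p(X)` is hereditarily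
separable, in particular if `X` is a continuous image of a second countable space.
-/

set_option autoImplicit false

namespace Pool.Agent.Results.MP_188e7a_gt.BoundedPieces

open Set Filter Topology TopologicalSpace
open Pool.Agent.Results.MP_1f8704_gt.LinearCondensation
open Pool.Agent.Results.MP_1f8704_gt.BorelClasses

universe u v

/-- Every continuous real function on `Y` is bounded on `B`. -/
def FunctionallyBounded {Y : Type v} [TopologicalSpace Y] (B : Set Y) : Prop :=
  ∀ g : Y → ℝ, Continuous g → ∃ C : ℝ, ∀ y ∈ B, |g y| ≤ C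

/-- Every set of continuous functions has a countable subset that is dense in it for the topology
of pointwise convergence. -/
def HereditarilySeparable (X : Type u) [TopologicalSpace X] : Prop :=
  ∀ A : Set (Cp X), ∃ D ⊆ A, D.Countable ∧ A ⊆ closure D

section General

variable {X : Type u} {Y : Type v} [TopologicalSpace X] [TopologicalSpace Y]

/-- A sequence of functions between zero and one, all vanishing near the ultrafilter and without
common zero, gives a function without finite limit. -/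
lemma converges_of_sequence (U : Ultrafilter Y)
    (hU : ∀ g : Y → ℝ, Continuous g → ∃ c : ℝ, Tendsto g U (𝓝 c)) (d : ℕ → Y → ℝ)
    (hd : ∀ n, Continuous (d n)) (h01 : ∀ n y, 0 ≤ d n y ∧ d n y ≤ 1)
    (h0 : ∀ n, ∀ᶠ y in (U : Filter Y), d n y = 0) (hpos' : ∀ y, ∃ n, 0 < d n y) : False := by
  set h : Y → ℝ := fun y => ∑' n : ℕ, (1 / 2 : ℝ) ^ n * d n y with hh
  have hgeo : Summable (fun n : ℕ => (1 / 2 : ℝ) ^ n) := summable_geometric_two
  have hbd : ∀ n y, ‖(1 / 2 : ℝ) ^ n * d n y‖ ≤ (1 / 2 : ℝ) ^ n := by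
    intro n y
    have h1 := h01 n y
    rw [norm_mul, Real.norm_of_nonneg (by positivity), Real.norm_of_nonneg h1.1]
    exact mul_le_of_le_one_right (by positivity) h1.2
  have hcont : Continuous h := by
    apply continuous_tsum (fun n => continuous_const.mul (hd n)) hgeo hbd
  have hpos : ∀ y, 0 < h y := by
    intro y
    obtain ⟨n, hn⟩ := hpos' y
    have hsum : Summable (fun n : ℕ => (1 / 2 : ℝ) ^ n * d n y) :=
      Summable.of_norm_bounded hgeo (fun n => hbd n y)
    apply hsum.tsum_pos (fun i => mul_nonneg (by positivity) (h01 i y).1) n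
    exact mul_pos (by positivity) hn
  have hlim : Tendsto h U (𝓝 0) := by
    have := tendsto_tsum_of_dominated_convergence (𝓕 := (U : Filter Y))
      (f := fun y n => (1 / 2 : ℝ) ^ n * d n y) (g := fun _ => (0 : ℝ)) hgeo
      (fun n => ?_) (Eventually.of_forall fun y n => hbd n y)
    · rwa [tsum_zero] at this
    · apply Tendsto.congr' _ tendsto_const_nhds
      filter_upwards [h0 n] with y hy
      rw [hy, mul_zero]
  obtain ⟨c, hc⟩ := hU (fun y => (h y)⁻¹) (hcont.inv₀ fun y => (hpos y).ne')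
  have h1 : Tendsto (fun y => h y * (h y)⁻¹) U (𝓝 (0 * c)) := hlim.mul hc
  have h2 : Tendsto (fun y => h y * (h y)⁻¹) U (𝓝 1) := by
    apply Tendsto.congr _ tendsto_const_nhds
    intro y
    exact (mul_inv_cancel₀ (hpos y).ne').symm
  have := tendsto_nhds_unique h1 h2
  simp at this

/-- In a sigma-compact space, closed functionally bounded sets are compact. -/
lemma compact_of_sigma [T35Space Y] [SigmaCompactSpace Y] {B : Set Y} (hB : IsClosed B)
    (hb : FunctionallyBounded B) : IsCompact B := by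
  rw [isCompact_iff_ultrafilter_le_nhds]
  intro U hUB
  have hBU : B ∈ U := le_principal_iff.1 hUB
  have hU : ∀ g : Y → ℝ, Continuous g → ∃ c : ℝ, Tendsto g U (𝓝 c) := by
    intro g hg
    obtain ⟨C, hC⟩ := hb g hg
    obtain ⟨l, -, hl⟩ := isCompact_iff_ultrafilter_le_nhds.1 (isCompact_Icc (a := -C) (b := C))
      (U.map g) (by
        rw [le_principal_iff]
        change g ⁻¹' Icc (-C) C ∈ U
        exact mem_of_superset hBU fun y hy => abs_le.1 (hC y hy))
    exact ⟨l, hl⟩
  by_cases hconv : ∃ y, (U : Filter Y) ≤ 𝓝 y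
  · obtain ⟨y, hy⟩ := hconv
    exact ⟨y, hB.closure_subset (mem_closure_iff_ultrafilter.2 ⟨U, hBU, hy⟩), hy⟩
  exfalso
  push Not at hconv
  have hg : ∀ y : Y, ∃ g : Y → ℝ, Continuous g ∧ (∀ z, 0 ≤ g z ∧ g z ≤ 1) ∧ g y = 1 ∧
      ∀ᶠ z in (U : Filter Y), g z = 0 := by
    intro y
    have h1 := hconv y
    rw [(nhds_basis_opens y).ge_iff] at h1
    push Not at h1
    obtain ⟨O, ⟨hyO, hO⟩, hOU⟩ := h1
    obtain ⟨g, hg, hg01, hgy, hgO⟩ := exists_sep hO hyO
    exact ⟨g, hg, hg01, hgy, mem_of_superset (Ultrafilter.compl_mem_iff_notMem.mpr hOU) hgO⟩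
  choose g hgc hg01 hg1 hg0 using hg
  obtain ⟨T, hTc, hT⟩ := isLindelof_univ.elim_countable_subcover (fun y => {z | 0 < g y z})
    (fun y => isOpen_Ioi.preimage (hgc y)) (fun z _ => mem_iUnion.2 ⟨z, by
      change 0 < g z z
      rw [hg1]
      exact one_pos⟩)
  obtain ⟨y₀⟩ := (U : Filter Y).nonempty_of_neBot
  have hTne : T.Nonempty := by
    obtain ⟨t, ht, _⟩ := mem_iUnion₂.1 (hT (mem_univ y₀))
    exact ⟨t, ht⟩
  obtain ⟨e, he⟩ := hTc.exists_eq_range hTne
  refine converges_of_sequence U hU (fun n => g (e n)) (fun n => hgc _) (fun n y => hg01 _ y)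
    (fun n => hg0 _) fun y => ?_
  obtain ⟨t, ht, hty⟩ := mem_iUnion₂.1 (hT (mem_univ y))
  rw [he] at ht
  obtain ⟨n, rfl⟩ := ht
  exact ⟨n, hty⟩

/-- The functionals with `k` point masses of size at most `n` in the compact set `K`. -/
def Piece (L : Cp X →ₗ[ℝ] Cp Y) (k n : ℕ) (K : Set X) : Set Y :=
  {y | ∃ p ∈ (Set.univ.pi fun _ : Fin k => Icc (-(n : ℝ)) n) ×ˢ (Set.univ.pi fun _ : Fin k => K),
    ∀ f : Cp X, (L f : Y → ℝ) y = ∑ i, p.1 i * (f : X → ℝ) (p.2 i)}

lemma piece_closed (L : Cp X →ₗ[ℝ] Cp Y) (k n : ℕ) {K : Set X} (hK : IsCompact K) :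
    IsClosed (Piece L k n K) := by
  let ψ : (Fin k → ℝ) × (Fin k → X) → Cp X → ℝ := fun p f => ∑ i, p.1 i * (f : X → ℝ) (p.2 i)
  have hψ : Continuous ψ := by
    apply continuous_pi
    intro f
    have hf : Continuous (f : X → ℝ) := f.2
    change Continuous fun p : (Fin k → ℝ) × (Fin k → X) => ∑ i, p.1 i * (f : X → ℝ) (p.2 i)
    fun_prop
  let Φ : Y → Cp X → ℝ := fun y f => (L f : Y → ℝ) y
  have hΦ : Continuous Φ := by
    apply continuous_pi
    intro f
    exact (L f).2
  have hcomp : IsCompact (ψ '' ((Set.univ.pi fun _ : Fin k => Icc (-(n : ℝ)) n) ×ˢ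
      (Set.univ.pi fun _ : Fin k => K))) :=
    ((isCompact_univ_pi fun _ => isCompact_Icc).prod (isCompact_univ_pi fun _ => hK)).image hψ
  have heq : Piece L k n K = Φ ⁻¹' (ψ '' ((Set.univ.pi fun _ : Fin k => Icc (-(n : ℝ)) n) ×ˢ
      (Set.univ.pi fun _ : Fin k => K))) := by
    ext y
    constructor
    · rintro ⟨p, hp, h⟩
      exact ⟨p, hp, funext fun f => (h f).symm⟩
    · rintro ⟨p, hp, h⟩
      exact ⟨p, hp, fun f => (congrFun h f).symm⟩
  rw [heq]
  exact hcomp.isClosed.preimage hΦ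

lemma piece_bounded (L : Cp X →ₗ[ℝ] Cp Y) (hsurj : Function.Surjective L) (k n : ℕ) {K : Set X}
    (hK : IsCompact K) : FunctionallyBounded (Piece L k n K) := by
  intro g hg
  obtain ⟨f, hf⟩ := hsurj ⟨g, hg⟩
  have hfg : (L f : Y → ℝ) = g := by rw [hf]
  have hfc : Continuous (f : X → ℝ) := f.2
  obtain ⟨c, hc⟩ := hK.exists_bound_of_continuousOn hfc.continuousOn
  refine ⟨∑ _i : Fin k, (n : ℝ) * |c|, ?_⟩
  rintro y ⟨⟨p, q⟩, ⟨hp, hq⟩, hpq⟩
  rw [← hfg, hpq f]
  refine (Finset.abs_sum_le_sum_abs _ _).trans (Finset.sum_le_sum fun i _ => ?_)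
  rw [abs_mul]
  have h2 : |p i| ≤ (n : ℝ) := abs_le.2 (hp i (mem_univ i))
  have h3 : |(f : X → ℝ) (q i)| ≤ |c| := (hc _ (hq i (mem_univ i))).trans (le_abs_self c)
  exact mul_le_mul h2 h3 (abs_nonneg _) (Nat.cast_nonneg _)

lemma mem_piece [SigmaCompactSpace X] (L : Cp X →ₗ[ℝ] Cp Y) (hL : Continuous L) (y : Y) :
    ∃ k n, y ∈ Piece L k n (compactCovering X n) := by
  classical
  obtain ⟨k, c, x, hφ⟩ := functional_eq ((ev y).comp L) ((continuous_ev y).comp hL)
  obtain ⟨N, hN⟩ := exists_nat_ge (∑ i, |c i|)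
  choose ν hν using fun i => exists_mem_compactCovering (x i)
  refine ⟨k, max N (∑ i, ν i), (c, x), ⟨?_, ?_⟩, hφ⟩
  · intro i _
    have h1 : |c i| ≤ ∑ i, |c i| :=
      Finset.single_le_sum (f := fun i => |c i|) (fun _ _ => abs_nonneg _) (Finset.mem_univ i)
    have h2 : (N : ℝ) ≤ ((max N (∑ i, ν i) : ℕ) : ℝ) := by exact_mod_cast le_max_left _ _
    exact abs_le.1 ((h1.trans hN).trans h2)
  · intro i _
    refine compactCovering_subset X ?_ (hν i)
    exact (Finset.single_le_sum (f := ν) (fun _ _ => Nat.zero_le _) (Finset.mem_univ i)).trans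
      (le_max_right _ _)

end General

/-- **Main theorem.** Let `X`, `Y` be Tychonoff, `X` sigma-compact, and let `C_p(X)` admit a
continuous linear surjection onto `C_p(Y)`.
(1) `Y` is the union of countably many closed functionally bounded sets.
(2) `Y` is sigma-compact if and only if every closed functionally bounded subset of `Y` is compact.
(3) If `C_p(X)` is hereditarily separable, then `Y` is sigma-compact.
(4) If `X` is a continuous image of a second countable space, then `Y` is sigma-compact. -/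
theorem result {X : Type u} {Y : Type v} [TopologicalSpace X] [TopologicalSpace Y]
    [T35Space X] [T35Space Y] [SigmaCompactSpace X]
    (h : ∃ L : Cp X →ₗ[ℝ] Cp Y, Continuous L ∧ Function.Surjective L) :
    (∃ B : ℕ → Set Y, (∀ n, IsClosed (B n) ∧ FunctionallyBounded (B n)) ∧ (⋃ n, B n) = univ) ∧
    (SigmaCompactSpace Y ↔ ∀ B : Set Y, IsClosed B → FunctionallyBounded B → IsCompact B) ∧
    (HereditarilySeparable X → SigmaCompactSpace Y) ∧
    ((∃ (M : Type u) (_ : TopologicalSpace M) (p : M → X), SecondCountableTopology M ∧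
      Continuous p ∧ Function.Surjective p) → SigmaCompactSpace Y) := by
  obtain ⟨L, hL, hsurj⟩ := h
  have h1 : ∃ B : ℕ → Set Y, (∀ n, IsClosed (B n) ∧ FunctionallyBounded (B n)) ∧
      (⋃ n, B n) = univ := by
    refine ⟨fun j => Piece L j.unpair.1 j.unpair.2 (compactCovering X j.unpair.2), fun j =>
      ⟨piece_closed L _ _ (isCompact_compactCovering X _),
        piece_bounded L hsurj _ _ (isCompact_compactCovering X _)⟩, ?_⟩
    rw [eq_univ_iff_forall]
    intro y
    obtain ⟨k, n, hkn⟩ := mem_piece L hL y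
    exact mem_iUnion.2 ⟨Nat.pair k n, by rw [Nat.unpair_pair]; exact hkn⟩
  have h2 : (∀ B : Set Y, IsClosed B → FunctionallyBounded B → IsCompact B) →
      SigmaCompactSpace Y := by
    intro hmu
    obtain ⟨B, hB, hcov⟩ := h1
    exact ⟨⟨B, fun n => hmu _ (hB n).1 (hB n).2, hcov⟩⟩
  have h3 : HereditarilySeparable X → SigmaCompactSpace Y := by
    intro hs
    refine h2 fun B hB hb => ?_
    rw [isCompact_iff_ultrafilter_le_nhds]
    intro U hUB
    have hBU : B ∈ U := le_principal_iff.1 hUB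
    have hU : ∀ g : Y → ℝ, Continuous g → ∃ c : ℝ, Tendsto g U (𝓝 c) := by
      intro g hg
      obtain ⟨C, hC⟩ := hb g hg
      obtain ⟨l, -, hl⟩ := isCompact_iff_ultrafilter_le_nhds.1 (isCompact_Icc (a := -C) (b := C))
        (U.map g) (by
          rw [le_principal_iff]
          change g ⁻¹' Icc (-C) C ∈ U
          exact mem_of_superset hBU fun y hy => abs_le.1 (hC y hy))
      exact ⟨l, hl⟩
    by_cases hconv : ∃ y, (U : Filter Y) ≤ 𝓝 y
    · obtain ⟨y, hy⟩ := hconv
      exact ⟨y, hB.closure_subset (mem_closure_iff_ultrafilter.2 ⟨U, hBU, hy⟩), hy⟩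
    exfalso
    push Not at hconv
    let A : Set (Cp X) := {f | (∀ y, 0 ≤ (L f : Y → ℝ) y ∧ (L f : Y → ℝ) y ≤ 1) ∧
      ∀ᶠ y in (U : Filter Y), (L f : Y → ℝ) y = 0}
    have hA : ∀ y, ∃ f ∈ A, (L f : Y → ℝ) y = 1 := by
      intro y
      have h1 := hconv y
      rw [(nhds_basis_opens y).ge_iff] at h1
      push Not at h1
      obtain ⟨O, ⟨hyO, hO⟩, hOU⟩ := h1
      obtain ⟨g, hg, hg01, hgy, hgO⟩ := exists_sep hO hyO
      obtain ⟨f, hf⟩ := hsurj ⟨g, hg⟩
      have hfg : (L f : Y → ℝ) = g := by rw [hf]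
      refine ⟨f, ⟨?_, ?_⟩, ?_⟩
      · rw [hfg]
        exact hg01
      · rw [hfg]
        exact mem_of_superset (Ultrafilter.compl_mem_iff_notMem.mpr hOU) hgO
      · rw [hfg]
        exact hgy
    obtain ⟨D, hDA, hDc, hD⟩ := hs A
    have hDy : ∀ y, ∃ f ∈ D, 0 < (L f : Y → ℝ) y := by
      intro y
      obtain ⟨f, hfA, hf1⟩ := hA y
      have ho : IsOpen {f : Cp X | 0 < (L f : Y → ℝ) y} :=
        isOpen_Ioi.preimage ((continuous_ev y).comp hL)
      obtain ⟨d, hd1, hd2⟩ := mem_closure_iff.mp (hD hfA) _ ho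
        (by change 0 < (L f : Y → ℝ) y; rw [hf1]; exact one_pos)
      exact ⟨d, hd2, hd1⟩
    have hne : D.Nonempty := by
      obtain ⟨y⟩ := (U : Filter Y).nonempty_of_neBot
      obtain ⟨f, hf, _⟩ := hDy y
      exact ⟨f, hf⟩
    obtain ⟨d, hd⟩ := hDc.exists_eq_range hne
    have hdA : ∀ n, d n ∈ A := fun n => hDA (hd ▸ mem_range_self n)
    refine converges_of_sequence U hU (fun n => (L (d n) : Y → ℝ)) (fun n => (L (d n)).2)
      (fun n y => (hdA n).1 y) (fun n => (hdA n).2) fun y => ?_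
    obtain ⟨f, hf, hfy⟩ := hDy y
    rw [hd] at hf
    obtain ⟨n, rfl⟩ := hf
    exact ⟨n, hfy⟩
  refine ⟨h1, ⟨fun _ B hB hb => compact_of_sigma hB hb, h2⟩, h3, ?_⟩
  rintro ⟨M, _, p, _, hp, hs⟩
  exact h3 fun A => exists_countable_dense'' hp hs A

end Pool.Agent.Results.MP_188e7a_gt.BoundedPieces
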